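import Pool.Agent.Lib.MP_d0f9e0_co.AN91.One
import Pool.Agent.Lib.MP_d0f9e0_co.AN.Sum
import Pool.Agent.Lib.MP_d0f9e0_co.AN.Symm

/-!
# (S5), spare version (helper91): THEOREM S gives the near group equation for one basis
-/

set_option autoImplicit false

namespace Pool.Agent.MP_d0f9e0_co.AN91

open Pool.MP_d0f9e0_co.SH hiding Fx fib mem_Fx mem_fib Lat fib_disc fib_per fib_inv
open Pool.Agent.MP_d0f9e0_co.AN45 Set
open Pool.MP_d0f9e0_co.GH (Zl Stb Fx cL zL clsZ FZ fib mem_Zl lat_Zl psi_mk ex ex_add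
  det_sub_left)
open Pool.MP_d0f9e0_co.CS (ee)
open Pool.Agent.Lib.MP_d0f9e0_co.AN (SS LC EE kk Rinv LC_of_SS win mem_win zz A2At)

section

variable {a b : ℤ} {c : ℕ} {d : ℤ} {β η : ℝ} {A : V ≃+ V} (h : Ctx a b c d β η A)
include h

omit h in
theorem tor_ptNm (hm : Mat a b (c : ℤ) d β η) (N m : ℤ) :
    Tor a b (c : ℤ) d (ptNm a b (c : ℤ) d N m) :=
  ⟨N, m, hm.Nq_ptNm N m, hm.mq_ptNm N m⟩

theorem Ctx.zz_eq (N m : ℤ) :
    zz η c d N m = zt (c : ℤ) η (ptNm a b (c : ℤ) d N m) := by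
  have h1 := h.mat.sq_eq
  have hη := h.mat.one_lt
  have hc := h.cR.ne'
  have hn : (a + d - 2 : ℝ) ≠ 0 := by
    have := h.mat.nQ
    intro h0
    apply this
    have h2 : (((a : ℚ) + d - 2 : ℚ) : ℝ) = 0 := by
      push_cast
      exact h0
    exact_mod_cast h2
  have hη1 : η - 1 ≠ 0 := by linarith
  have hη0 : η ≠ 0 := by linarith
  have e0 : 1 - 1 / η = (η - 1) / η := by field_simp
  rw [zt_eq]
  unfold zz ptNm
  rw [e0]
  push_cast
  rw [div_mul_div_comm, div_div_eq_mul_div, div_eq_div_iff hη1 (mul_ne_zero hn hc)]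
  have e1 : ((N : ℝ) - (d - 1) * m / c) * η * ((a + d - 2) * c) =
      (c * N - (d - 1) * m) * ((a + d - 2) * η) := by
    field_simp
  rw [e1, ← h1]
  ring

theorem Ctx.mem_win_iff (N m : ℤ) : N ∈ win c d (a + d - 2) m ↔
    0 < (ptNm a b (c : ℤ) d N m).2 ∧ (ptNm a b (c : ℤ) d N m).2 ≤ 1 := by
  have hn : (0 : ℚ) < (a : ℚ) + d - 2 := by
    have := h.mat.npos
    exact_mod_cast this
  rw [mem_win h.cpos]
  unfold ptNm
  simp only
  rw [div_le_one hn]
  constructor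
  · rintro ⟨h1, h2⟩
    refine ⟨div_pos ?_ hn, ?_⟩
    · exact_mod_cast h1
    · exact_mod_cast h2
  · rintro ⟨h1, h2⟩
    refine ⟨?_, ?_⟩
    · have := (div_pos_iff_of_pos_right hn).1 h1
      exact_mod_cast this
    · exact_mod_cast h2

/-- **Reindexing.** -/
theorem Ctx.reindex [Fintype (Fx A Zl)] (f : V ⧸ Zl → ℂ) :
    ∑ m ∈ Finset.range c, ∑ N ∈ win c d (a + d - 2) (m : ℤ),
      f (QuotientAddGroup.mk (ptNm a b (c : ℤ) d N m)) = ∑ g : Fx A Zl, f g := by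
  rw [Finset.sum_sigma']
  refine Finset.sum_bij (fun q _ => (⟨QuotientAddGroup.mk (ptNm a b (c : ℤ) d q.2 (q.1 : ℤ)),
    (h.mem_Fx _).2 (tor_ptNm h.mat _ _)⟩ : Fx A Zl)) ?_ ?_ ?_ ?_
  · intro q _
    exact Finset.mem_univ _
  · rintro ⟨m, N⟩ hq ⟨m', N'⟩ hq' e
    rw [Finset.mem_sigma, Finset.mem_range] at hq hq'
    simp only at hq hq' e
    have e2 := congrArg Subtype.val e
    simp only at e2
    rw [QuotientAddGroup.eq, mem_Zl] at e2
    obtain ⟨i, j, e3⟩ := e2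
    obtain ⟨w, _, hu⟩ := h.mat.existsUnique_rep 0 (tor_ptNm h.mat N (m : ℤ))
    have w1 := (h.mem_win_iff N m).1 hq.2
    have w2 := (h.mem_win_iff N' m').1 hq'.2
    have lm : (m : ℤ) < (c : ℤ) := by exact_mod_cast hq.1
    have lm' : (m' : ℤ) < (c : ℤ) := by exact_mod_cast hq'.1
    have w1a : (0 : ℝ) < ((ptNm a b (c : ℤ) d N m).2 : ℝ) := by exact_mod_cast w1.1
    have w1b : ((ptNm a b (c : ℤ) d N m).2 : ℝ) ≤ 0 + 1 := by
      rw [zero_add]; exact_mod_cast w1.2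
    have w2a : (0 : ℝ) < ((ptNm a b (c : ℤ) d N' m').2 : ℝ) := by exact_mod_cast w2.1
    have w2b : ((ptNm a b (c : ℤ) d N' m').2 : ℝ) ≤ 0 + 1 := by
      rw [zero_add]; exact_mod_cast w2.2
    have u1 := hu (N, (m : ℤ)) ⟨Int.natCast_nonneg m, lm, w1a, w1b, 0, 0, by simp⟩
    have u2 := hu (N', (m' : ℤ)) ⟨Int.natCast_nonneg m', lm', w2a, w2b, i, j, by
      rw [← e3]; abel⟩
    have u3 := u1.trans u2.symm
    simp only [Prod.mk.injEq, Nat.cast_inj] at u3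
    obtain ⟨r1, r2⟩ := u3
    subst r1
    subst r2
    rfl
  · rintro ⟨g, hg⟩ _
    obtain ⟨x, rfl⟩ := QuotientAddGroup.mk_surjective g
    obtain ⟨⟨N, m⟩, ⟨g1, g2, g3, g4, i, j, g5⟩, _⟩ := h.mat.existsUnique_rep 0 ((h.mem_Fx x).1 hg)
    simp only at g1 g2 g3 g4 g5
    rw [zero_add] at g4
    obtain ⟨k, hk⟩ := Int.eq_ofNat_of_zero_le g1
    subst hk
    refine ⟨⟨k, N⟩, ?_, ?_⟩
    · rw [Finset.mem_sigma, Finset.mem_range]
      refine ⟨by exact_mod_cast g2, ?_⟩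
      rw [h.mem_win_iff]
      exact ⟨by exact_mod_cast g3, by exact_mod_cast g4⟩
    · apply Subtype.ext
      simp only
      rw [g5, mk_add_int]
  · rintro ⟨m, N⟩ _
    rfl

variable {s : ℂ → ℂ} (hs : SS η s) {S : ℝ → ℝ → ℝ → ℝ} (hSd : DS S)
  (hS : ∀ x : ℝ, 0 < x → x < 1 + η → ‖s x‖ = (S 1 η x)⁻¹)

include hs hSd hS in
/-- **THEOREM S in terms of the values `c`, `z`.** -/
theorem Ctx.sum_values [Fintype (Fx A Zl)] {p y : V} (hp : Tor a b (c : ℤ) d p)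
    (hy : Tor a b (c : ℤ) d y) (hp0 : 0 < p.2) (hy0 : 0 ≤ y.2) (hpy : p.2 + y.2 < 1)
    (hbeta : ∀ (mp my : ℤ) (x0 : ℝ), mq a (c : ℤ) p = mp → mq a (c : ℤ) y = my → 0 < x0 →
      x0 < zt (c : ℤ) η p → x0 < 1 / c →
      Complex.I * ∑ m ∈ Finset.range c, ∫ t : ℝ,
        Pool.Agent.Lib.MP_d0f9e0_co.AN.FF (EE s η c a) η c a d (zt (c : ℤ) η p : ℝ) mp
          (zt (c : ℤ) η y : ℝ) my (x0 + t * Complex.I) m =
        Pool.Agent.Lib.MP_d0f9e0_co.AN.RR (EE s η c a) η c a d (zt (c : ℤ) η p : ℝ) mp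
          (zt (c : ℤ) η y : ℝ) my) :
    ∑ g : Fx A Zl, ((cL S β A Zl (-(g : V ⧸ Zl)) : ℝ) : ℂ) * zL β A Zl (-(g : V ⧸ Zl)) *
      (((cL S β A Zl ((g : V ⧸ Zl) - QuotientAddGroup.mk p) : ℝ) : ℂ) /
        zL β A Zl ((g : V ⧸ Zl) - QuotientAddGroup.mk p)) *
      Pool.MP_d0f9e0_co.GH.psi A Zl 1 g (QuotientAddGroup.mk y) =
    ((√η - (√η)⁻¹ : ℝ) : ℂ) *
      Pool.MP_d0f9e0_co.GH.psi A Zl 1 (QuotientAddGroup.mk p) (QuotientAddGroup.mk y) *
      (((cL S β A Zl (-QuotientAddGroup.mk p) : ℝ) : ℂ) *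
        ((cL S β A Zl (-QuotientAddGroup.mk y) : ℝ) : ℂ) *
        ((cL S β A Zl (QuotientAddGroup.mk (y + p)) : ℝ) : ℂ)) *
      (zL β A Zl (QuotientAddGroup.mk p) * zL β A Zl (QuotientAddGroup.mk y) /
        (zL β A Zl 0 * zL β A Zl (QuotientAddGroup.mk (y + p)))) := by
  have hcR := h.cR
  have hη := h.mat.one_lt
  have hη0 : η ≠ 0 := by linarith
  have hL := LC_of_SS hs h.cpos h.dvd
  obtain ⟨Np, mp, hNp, hmp⟩ := hp
  obtain ⟨Ny, my, hNy, hmy⟩ := hy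
  have tp : Tor a b (c : ℤ) d p := ⟨Np, mp, hNp, hmp⟩
  have ty : Tor a b (c : ℤ) d y := ⟨Ny, my, hNy, hmy⟩
  have hdivpos := h.eta_div_pos
  have htr : η + 1 / η = a + d := by
    have := h.mat.inv_eq
    linarith
  -- the integrality conditions
  have key : ∀ (x : V) (N m : ℤ), Nq b d x = N → mq a (c : ℤ) x = m →
      zt (c : ℤ) η x * (1 - 1 / η) + (d - 1) * m / c = N := by
    intro x N m hN hm
    have e1 := h.mat.Xt x
    have e2 := h.mat.X x
    rw [hm] at e1 e2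
    rw [hN] at e2
    push_cast at e1 e2
    have e3 : zt (c : ℤ) η x * (1 - 1 / η) + (d - 1) * m / c =
        (zt (c : ℤ) η x + d * m / c) - (zt (c : ℤ) η x / η + m / c) := by
      field_simp
      ring
    rw [e3, e1, e2]
    ring
  have hzp : 0 < zt (c : ℤ) η p := by
    rw [zt_eq]
    have : (0 : ℝ) < p.2 := by exact_mod_cast hp0
    positivity
  have hzy : 0 ≤ zt (c : ℤ) η y := by
    rw [zt_eq]
    have : (0 : ℝ) ≤ y.2 := by exact_mod_cast hy0
    positivity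
  have hzpy : zt (c : ℤ) η p + zt (c : ℤ) η y < (η - 1) / c := by
    rw [zt_eq, zt_eq]
    have : (p.2 : ℝ) + y.2 < 1 := by exact_mod_cast hpy
    nlinarith
  have T := hL.sum_formula_of_beta htr (key p Np mp hNp hmp) (key y Ny my hNy hmy) hzp hzy hzpy
    (fun x0 g1 g2 g3 => hbeta mp my x0 hmp hmy g1 g2 g3)
  -- the left side
  set Fg : V ⧸ Zl → ℂ := fun g => ((cL S β A Zl (-g) : ℝ) : ℂ) * zL β A Zl (-g) *
          (((cL S β A Zl (g - QuotientAddGroup.mk p) : ℝ) : ℂ) /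
            zL β A Zl (g - QuotientAddGroup.mk p)) *
          Pool.MP_d0f9e0_co.GH.psi A Zl 1 g (QuotientAddGroup.mk y) with hFg
  have L1 : ∑ m ∈ Finset.range c, ∑ N ∈ win c d (a + d - 2) (m : ℤ),
        EE s η c a (zz η c d N m : ℝ) m *
          Rinv (EE s η c a) η c d ((zz η c d N m : ℝ) - (zt (c : ℤ) η p : ℝ)) (m - mp) *
          Pool.Agent.Lib.MP_d0f9e0_co.AN.psi η c d (zz η c d N m : ℝ) m (zt (c : ℤ) η y : ℝ) my =
      ∑ m ∈ Finset.range c, ∑ N ∈ win c d (a + d - 2) (m : ℤ),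
        Fg (QuotientAddGroup.mk (ptNm a b (c : ℤ) d N m)) := by
    refine Finset.sum_congr rfl fun m hm => Finset.sum_congr rfl fun N hN => ?_
    obtain ⟨w1, w2⟩ := (h.mem_win_iff N m).1 hN
    have tx := tor_ptNm h.mat N (m : ℤ)
    have hmx := h.mat.mq_ptNm N (m : ℤ)
    set x := ptNm a b (c : ℤ) d N m with hx
    rw [h.zz_eq N m, ← hx]
    rw [h.EE_val' hs hSd hS tx w1 w2 hmx]
    have e1 : ((zt (c : ℤ) η x : ℝ) : ℂ) - ((zt (c : ℤ) η p : ℝ) : ℂ) =
        ((zt (c : ℤ) η (x - p) : ℝ) : ℂ) := by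
      rw [zt_sub]
      push_cast
      ring
    have e2 : mq a (c : ℤ) (x - p) = (((m : ℤ) - mp : ℤ) : ℚ) := by
      rw [mq_sub, hmx, hmp]
      push_cast
      ring
    rw [e1, h.Rinv_val hs hSd hS (Tor.sub tx tp)
      (by rw [Prod.snd_sub]; linarith) (by rw [Prod.snd_sub]; linarith) e2]
    rw [h.psi_val tx ty hmx hmy, hFg]
    simp only [QuotientAddGroup.mk_sub]
    ring
  rw [L1, h.reindex Fg] at T
  show ∑ g : Fx A Zl, Fg g = _
  rw [T]
  -- the right side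
  have cpos := fun x : V ⧸ Zl => h.cLpos hSd x
  have cne : ∀ x : V ⧸ Zl, ((cL S β A Zl x : ℝ) : ℂ) ≠ 0 := fun x => by
    exact_mod_cast (cpos x).ne'
  have zne := fun x : V ⧸ Zl => zL_ne β A x
  have hs0 : (0 : ℝ) < √η := Real.sqrt_pos.mpr (by linarith)
  have hsq : √η * √η = η := Real.mul_self_sqrt (by linarith)
  have v0 : EE s η c a 0 0 = zL β A Zl 0 / ((√η : ℝ) : ℂ) := by
    have e := h.EE_val hs hSd hS (x := 0) Tor.zero le_rfl (by norm_num) (m := 0)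
      (by simp [mq])
    rw [QuotientAddGroup.mk_zero, Pool.MP_d0f9e0_co.GH.cL_zero hSd h.irr h.hyp hη lat_Zl
      h.stb] at e
    rw [← e]
    congr 1
    rw [zt_eq]
    simp
  have vp := h.EE_val hs hSd hS tp hp0.le (by linarith) hmp
  have vy := h.EE_val hs hSd hS ty hy0 (by linarith) hmy
  have hmpy : mq a (c : ℤ) (y + p) = ((my + mp : ℤ) : ℚ) := by
    rw [mq_add, hmp, hmy]
    push_cast
    ring
  have vpy := h.EE_val hs hSd hS (Tor.add ty tp) (by rw [Prod.snd_add]; linarith)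
    (by rw [Prod.snd_add]; linarith) hmpy
  have e1 : ((zt (c : ℤ) η y : ℝ) : ℂ) + ((zt (c : ℤ) η p : ℝ) : ℂ) =
      ((zt (c : ℤ) η (y + p) : ℝ) : ℂ) := by
    rw [zt_add]
    push_cast
    ring
  rw [e1, v0, vp, vy, vpy, h.psi_val tp ty hmp hmy]
  -- `p ≠ 0` modulo the lattice
  have hpne : (QuotientAddGroup.mk p : V ⧸ Zl) ≠ 0 := by
    intro e
    rw [QuotientAddGroup.eq_zero_iff, mem_Zl] at e
    obtain ⟨i, j, e⟩ := e
    have e2 : p.2 = j := congrArg Prod.snd e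
    rw [e2] at hp0 hpy
    have g1 : 0 < j := by exact_mod_cast hp0
    have g2 : (j : ℚ) < 1 := by linarith
    have g3 : j < 1 := by exact_mod_cast g2
    omega
  have memp : (QuotientAddGroup.mk p : V ⧸ Zl) ∈ Fx A Zl := (h.mem_Fx p).2 tp
  have memy : (QuotientAddGroup.mk y : V ⧸ Zl) ∈ Fx A Zl := (h.mem_Fx y).2 ty
  have np := Pool.MP_d0f9e0_co.GH.cL_neg hSd h.irr h.hyp hη lat_Zl h.stb memp hpne
  have npC : ((cL S β A Zl (QuotientAddGroup.mk p) : ℝ) : ℂ) *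
      ((cL S β A Zl (-QuotientAddGroup.mk p) : ℝ) : ℂ) = 1 := by exact_mod_cast np
  have hcp : ((cL S β A Zl (-QuotientAddGroup.mk p) : ℝ) : ℂ) =
      1 / ((cL S β A Zl (QuotientAddGroup.mk p) : ℝ) : ℂ) := by
    rw [eq_div_iff (cne _), mul_comm]
    exact npC
  have hsC : ((√η : ℝ) : ℂ) ≠ 0 := by exact_mod_cast hs0.ne'
  have hsqC : ((√η : ℝ) : ℂ) * ((√η : ℝ) : ℂ) = (η : ℂ) := by exact_mod_cast hsq
  by_cases hy' : (QuotientAddGroup.mk y : V ⧸ Zl) = 0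
  · -- `y ∈ L`
    have hy2 : y.2 = 0 := by
      rw [QuotientAddGroup.eq_zero_iff, mem_Zl] at hy'
      obtain ⟨i, j, e⟩ := hy'
      have e2 : y.2 = j := congrArg Prod.snd e
      rw [e2] at hy0 hpy
      have g1 : 0 ≤ j := by exact_mod_cast hy0
      have g2 : (j : ℚ) < 1 := by linarith
      have g3 : j < 1 := by exact_mod_cast g2
      have g4 : j = 0 := by omega
      rw [e2, g4]
      simp
    have hdv : (c : ℤ) ∣ my := by
      rw [QuotientAddGroup.eq_zero_iff, mem_Zl] at hy'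
      obtain ⟨i, j, e⟩ := hy'
      have e1 : y.1 = i := congrArg Prod.fst e
      refine ⟨i, ?_⟩
      have : (my : ℚ) = c * i := by
        rw [← hmy]
        unfold mq
        rw [hy2, e1]
        push_cast
        ring
      exact_mod_cast this
    rw [if_pos ⟨by rw [zt_eq, hy2]; simp, hdv⟩]
    have hpy' : (QuotientAddGroup.mk (y + p) : V ⧸ Zl) = QuotientAddGroup.mk p := by
      rw [QuotientAddGroup.mk_add, hy', zero_add]
    have c0 := Pool.MP_d0f9e0_co.GH.cL_zero hSd h.irr h.hyp hη lat_Zl h.stb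
    rw [hpy', hy', neg_zero, c0, hcp]
    have hψ : Pool.MP_d0f9e0_co.GH.psi A Zl 1 (QuotientAddGroup.mk p) 0 = 1 := by
      have := psi_mk h.hyp lat_Zl h.stb ((h.tor_iff p).1 tp) (q := 0)
        (by rw [map_zero, sub_zero]; exact Zl.zero_mem)
      rw [QuotientAddGroup.mk_zero] at this
      rw [this]
      have e3 : (det (A p - p) 0 / 1 : ℚ) = 0 := by simp [det]
      rw [e3]
      have := Pool.MP_d0f9e0_co.GH.ex_int 0
      push_cast at this ⊢
      exact this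
    rw [hψ]
    have z0 := zne 0
    have zp := zne (QuotientAddGroup.mk p)
    have cp := cne (QuotientAddGroup.mk p)
    have hηC : (η : ℂ) ≠ 0 := by exact_mod_cast hη0
    push_cast
    rw [← hsqC]
    field_simp
    ring
  · have hcond : ¬ (zt (c : ℤ) η y = 0 ∧ (c : ℤ) ∣ my) := by
      rintro ⟨g1, i, g2⟩
      apply hy'
      have hy2R : (y.2 : ℝ) = 0 := by
        rw [zt_eq] at g1
        rcases mul_eq_zero.1 g1 with g | g
        · exact g
        · exact absurd g hdivpos.ne'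
      have hy2 : y.2 = 0 := by exact_mod_cast hy2R
      rw [QuotientAddGroup.eq_zero_iff, mem_Zl]
      refine ⟨i, 0, ?_⟩
      ext
      · have e3 : (c : ℚ) * y.1 = c * i := by
          have e4 := hmy
          unfold mq at e4
          rw [hy2, g2] at e4
          push_cast at e4
          linarith
        exact mul_left_cancel₀ h.cQ.ne' e3
      · rw [hy2]
        simp
    rw [if_neg hcond, add_zero]
    have ny := Pool.MP_d0f9e0_co.GH.cL_neg hSd h.irr h.hyp hη lat_Zl h.stb memy hy'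
    have nyC : ((cL S β A Zl (QuotientAddGroup.mk y) : ℝ) : ℂ) *
        ((cL S β A Zl (-QuotientAddGroup.mk y) : ℝ) : ℂ) = 1 := by exact_mod_cast ny
    have hcy : ((cL S β A Zl (-QuotientAddGroup.mk y) : ℝ) : ℂ) =
        1 / ((cL S β A Zl (QuotientAddGroup.mk y) : ℝ) : ℂ) := by
      rw [eq_div_iff (cne _), mul_comm]
      exact nyC
    rw [hcp, hcy]
    have z0 := zne 0
    have zp := zne (QuotientAddGroup.mk p)
    have zy := zne (QuotientAddGroup.mk y)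
    have zpy := zne (QuotientAddGroup.mk (y + p))
    have cp := cne (QuotientAddGroup.mk p)
    have cy := cne (QuotientAddGroup.mk y)
    have cpy := cne (QuotientAddGroup.mk (y + p))
    have hηC : (η : ℂ) ≠ 0 := by exact_mod_cast hη0
    push_cast
    rw [← hsqC]
    field_simp

end

end Pool.Agent.MP_d0f9e0_co.AN91
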