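import Pool.Agent.Lib.MP_d0f9e0_co.AN91.A2
import Pool.Agent.Lib.MP_d0f9e0_co.AN.All
import Pool.Agent.Lib.MP_d0f9e0_co.AN.BetaC
import Pool.Agent.Lib.MP_d0f9e0_co.F7.SSof
import Pool.Agent.Lib.MP_d0f9e0_co.DS71f
import Pool.Agent.Lib.MP_d0f9e0_co.SH.Inst
import Pool.Agent.Lib.MP_d0f9e0_co.PH.ZL96

/-!
# (A2) for one basis: `OneA2 Sr` (helper91)
-/

set_option autoImplicit false

namespace Pool.Agent.MP_d0f9e0_co.AN91

open Pool.MP_d0f9e0_co.SH hiding Fx fib mem_Fx mem_fib Lat fib_disc fib_per fib_inv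
open Pool.Agent.MP_d0f9e0_co.AN45 Set
open Pool.MP_d0f9e0_co.GH (Zl Stb Fx cL zL clsZ FZ fib mem_Zl lat_Zl psi_mk ex ex_add
  det_sub_left)
open Pool.MP_d0f9e0_co.CS (ee)
open Pool.Agent.Lib.MP_d0f9e0_co.AN (SS LC EE kk Rinv LC_of_SS win mem_win zz A2At OneA2)

theorem exists_ctx {θ η : ℝ} {A : V ≃+ V} (hθ : Irrational θ) (hA : Hyp θ A η) (h1 : 1 < η)
    (hst : Stb A Zl) (hd : 0 < det (1, 0) (A (1, 0))) :
    ∃ (a b : ℤ) (c : ℕ) (d : ℤ), Ctx a b c d θ η A := by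
  have m1 : A (1, 0) ∈ Zl := (hst _).2 ((mem_Zl _).2 ⟨1, 0, by simp⟩)
  have m2 : A (0, 1) ∈ Zl := (hst _).2 ((mem_Zl _).2 ⟨0, 1, by simp⟩)
  obtain ⟨d, c, e1⟩ := (mem_Zl _).1 m1
  obtain ⟨b, a, e2⟩ := (mem_Zl _).1 m2
  rw [e1] at hd
  have hc : 0 < c := by
    have : (0 : ℚ) < c := by
      have e : det ((1 : ℚ), (0 : ℚ)) ((d : ℚ), (c : ℚ)) = c := by simp [det]
      rwa [e] at hd
    exact_mod_cast this
  obtain ⟨k, rfl⟩ := Int.eq_ofNat_of_zero_le hc.le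
  have hdet : a * d - b * (k : ℤ) = 1 := by
    have := hA.det_eq (1, 0) (0, 1)
    rw [e1, e2] at this
    simp only [det] at this
    push_cast at this
    have h3 : (a : ℚ) * d - b * k = 1 := by linarith
    exact_mod_cast h3
  have l1 := hA.ell_eq (1, 0)
  have l2 := hA.ell_eq (0, 1)
  rw [e1] at l1
  rw [e2] at l2
  simp only [ell] at l1 l2
  push_cast at l1 l2
  refine ⟨a, b, k, d, ⟨⟨hdet, hc, h1, ?_, ?_⟩, hθ, ?_⟩⟩
  · push_cast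
    linarith
  · linarith
  · intro p
    have e : p = p.1 • ((1 : ℚ), (0 : ℚ)) + p.2 • ((0 : ℚ), (1 : ℚ)) := by
      ext <;> simp
    have e3 : A p = p.1 • A ((1 : ℚ), (0 : ℚ)) + p.2 • A ((0 : ℚ), (1 : ℚ)) := by
      conv_lhs => rw [e]
      rw [map_add, Pool.MP_d0f9e0_co.GH.map_smul_rat, Pool.MP_d0f9e0_co.GH.map_smul_rat]
    rw [e3, e1, e2]
    ext
    · simp only [Prod.smul_mk, Prod.mk_add_mk, smul_eq_mul]
      ring
    · simp only [Prod.smul_mk, Prod.mk_add_mk, smul_eq_mul]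
      push_cast
      ring

theorem psi_neg_neg {a b : ℤ} {c : ℕ} {d : ℤ} {β η : ℝ} {A : V ≃+ V} (h : Ctx a b c d β η A)
    {x y : V ⧸ Zl} (hx : x ∈ Fx A Zl) (hy : y ∈ Fx A Zl) :
    Pool.MP_d0f9e0_co.GH.psi A Zl 1 (-x) (-y) = Pool.MP_d0f9e0_co.GH.psi A Zl 1 x y := by
  obtain ⟨p, rfl⟩ := QuotientAddGroup.mk_surjective x
  obtain ⟨q, rfl⟩ := QuotientAddGroup.mk_surjective y
  have tp := (h.tor_iff p).1 ((h.mem_Fx p).1 hx)
  have tq := (h.tor_iff q).1 ((h.mem_Fx q).1 hy)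
  have tp' := (h.tor_iff (-p)).1 (Tor.neg ((h.mem_Fx p).1 hx))
  have tq' := (h.tor_iff (-q)).1 (Tor.neg ((h.mem_Fx q).1 hy))
  rw [← QuotientAddGroup.mk_neg, ← QuotientAddGroup.mk_neg, psi_mk h.hyp lat_Zl h.stb tp' tq',
    psi_mk h.hyp lat_Zl h.stb tp tq]
  congr 3
  rw [map_neg]
  simp only [det, Prod.fst_sub, Prod.snd_sub, Prod.fst_neg, Prod.snd_neg]
  ring

/-- **(A2) in one basis.** -/
theorem oneA2 : OneA2 Sr := by
  intro θ A η _ hθ hA h1 hst hd p y hp hy hp0 hy0 hpy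
  obtain ⟨a, b, c, d, h⟩ := exists_ctx hθ hA h1 hst hd
  have hs := Pool.Agent.F7.ss_fad h1 h.etairr
  have hS : ∀ x : ℝ, 0 < x → x < 1 + η → ‖Pool.Agent.F7.fad 1 η x‖ = (Sr 1 η x)⁻¹ :=
    fun x g1 g2 => Pool.Agent.DS71.SS_norm hs g1 g2
  have tp := (h.mem_Fx p).1 hp
  have ty := (h.mem_Fx y).1 hy
  have hL := LC_of_SS hs h.cpos h.dvd
  have hcR := h.cR
  have hdiv := h.eta_div_pos
  have hpR : (0 : ℝ) < p.2 := by exact_mod_cast hp0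
  have hyR : (0 : ℝ) ≤ y.2 := by exact_mod_cast hy0
  have hpyR : (p.2 : ℝ) + y.2 < 1 := by exact_mod_cast hpy
  have hc1 : 0 < 1 / (c : ℝ) := by positivity
  have e6 : (η - 1) / (c : ℝ) = η / c - 1 / c := by ring
  have key := h.sum_values hs ds_Sr hS tp ty hp0 hy0 hpy (by
    intro mp my x0 _ _ g1 g2 _
    refine hL.beta (ρ := zt (c : ℤ) η p) ?_ ?_ mp my ?_ ?_ g1 g2
    · rw [zt_eq]
      positivity
    · intro n hn
      rw [zt_eq] at hn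
      apply h.etairr
      refine ⟨n / p.2 + 1, ?_⟩
      push_cast
      field_simp at hn ⊢
      linarith
    · rw [Complex.ofReal_re, zt_eq]
      have : -1 / (c : ℝ) < 0 := by
        rw [neg_div]
        linarith
      have h3 : 0 ≤ (y.2 : ℝ) * ((η - 1) / c) := by positivity
      linarith
    · rw [Complex.ofReal_re, zt_eq, zt_eq]
      have h3 : ((y.2 : ℝ) + p.2) * ((η - 1) / c) < 1 * ((η - 1) / c) :=
        mul_lt_mul_of_pos_right (by linarith) hdiv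
      linarith)
  unfold A2At
  rw [← Equiv.sum_comp (Equiv.neg (Fx A Zl))]
  have znegL : ∀ x : V ⧸ Zl, x ∈ Fx A Zl → zL θ A Zl (-x) = zL θ A Zl x := fun x hx =>
    Pool.MP_d0f9e0_co.PH.zL_neg hθ hA h1 lat_Zl hst hx
  have L : ∀ g : Fx A Zl, ((cL Sr θ A Zl ((Equiv.neg (Fx A Zl)) g : Fx A Zl) : ℝ) : ℂ) *
      ((cL Sr θ A Zl ((-(⟨QuotientAddGroup.mk p, hp⟩ : Fx A Zl) - (Equiv.neg (Fx A Zl)) g :
        Fx A Zl) : V ⧸ Zl) : ℝ) : ℂ) *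
      (zL θ A Zl ((Equiv.neg (Fx A Zl)) g : Fx A Zl) /
        zL θ A Zl (((Equiv.neg (Fx A Zl)) g - -(⟨QuotientAddGroup.mk p, hp⟩ : Fx A Zl) :
          Fx A Zl) : V ⧸ Zl)) *
      Pool.MP_d0f9e0_co.GH.psi A Zl 1 ((Equiv.neg (Fx A Zl)) g : Fx A Zl)
        ((-(⟨QuotientAddGroup.mk y, hy⟩ : Fx A Zl) : Fx A Zl) : V ⧸ Zl) =
      ((cL Sr θ A Zl (-(g : V ⧸ Zl)) : ℝ) : ℂ) * zL θ A Zl (-(g : V ⧸ Zl)) *
      (((cL Sr θ A Zl ((g : V ⧸ Zl) - QuotientAddGroup.mk p) : ℝ) : ℂ) /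
        zL θ A Zl ((g : V ⧸ Zl) - QuotientAddGroup.mk p)) *
      Pool.MP_d0f9e0_co.GH.psi A Zl 1 g (QuotientAddGroup.mk y) := by
    intro g
    have e1 : (((Equiv.neg (Fx A Zl)) g : Fx A Zl) : V ⧸ Zl) = -(g : V ⧸ Zl) := rfl
    have e2 : ((-(⟨QuotientAddGroup.mk p, hp⟩ : Fx A Zl) - (Equiv.neg (Fx A Zl)) g :
        Fx A Zl) : V ⧸ Zl) = (g : V ⧸ Zl) - QuotientAddGroup.mk p := by
      show -(QuotientAddGroup.mk p : V ⧸ Zl) - -(g : V ⧸ Zl) = _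
      abel
    have e3 : (((Equiv.neg (Fx A Zl)) g - -(⟨QuotientAddGroup.mk p, hp⟩ : Fx A Zl) :
        Fx A Zl) : V ⧸ Zl) = -((g : V ⧸ Zl) - QuotientAddGroup.mk p) := by
      show -(g : V ⧸ Zl) - -(QuotientAddGroup.mk p : V ⧸ Zl) = _
      abel
    have e4 : ((-(⟨QuotientAddGroup.mk y, hy⟩ : Fx A Zl) : Fx A Zl) : V ⧸ Zl) =
        -(QuotientAddGroup.mk y : V ⧸ Zl) := rfl
    rw [e1, e2, e3, e4, znegL _ ((Fx A Zl).sub_mem g.2 hp), psi_neg_neg h g.2 hy]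
    ring
  rw [Finset.sum_congr rfl fun g _ => L g, key]
  have f1 : ((-(⟨QuotientAddGroup.mk p, hp⟩ : Fx A Zl) : Fx A Zl) : V ⧸ Zl) =
      -(QuotientAddGroup.mk p : V ⧸ Zl) := rfl
  have f2 : ((-(⟨QuotientAddGroup.mk y, hy⟩ : Fx A Zl) : Fx A Zl) : V ⧸ Zl) =
      -(QuotientAddGroup.mk y : V ⧸ Zl) := rfl
  have f3 : ((-(-(⟨QuotientAddGroup.mk y, hy⟩ : Fx A Zl)) - -(⟨QuotientAddGroup.mk p, hp⟩ :
      Fx A Zl) : Fx A Zl) : V ⧸ Zl) = QuotientAddGroup.mk (y + p) := by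
    show -(-(QuotientAddGroup.mk y : V ⧸ Zl)) - -(QuotientAddGroup.mk p : V ⧸ Zl) = _
    rw [QuotientAddGroup.mk_add]
    abel
  have f4 : ((-(⟨QuotientAddGroup.mk y, hy⟩ : Fx A Zl) + -(⟨QuotientAddGroup.mk p, hp⟩ :
      Fx A Zl) : Fx A Zl) : V ⧸ Zl) = -(QuotientAddGroup.mk (y + p) : V ⧸ Zl) := by
    show -(QuotientAddGroup.mk y : V ⧸ Zl) + -(QuotientAddGroup.mk p : V ⧸ Zl) = _
    rw [QuotientAddGroup.mk_add]
    abel
  have f5 : ((0 : Fx A Zl) : V ⧸ Zl) = 0 := rfl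
  beta_reduce
  rw [f1, f2, f3, f4, f5, znegL _ hp, znegL _ hy, psi_neg_neg h hp hy,
    znegL _ (by rw [QuotientAddGroup.mk_add]; exact (Fx A Zl).add_mem hy hp)]

end Pool.Agent.MP_d0f9e0_co.AN91
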