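import Pool.Agent.Lib.MP_d0f9e0_co.AN91.Val

/-!
# (S5), spare version (helper91): from THEOREM S to (A2), one basis
-/

set_option autoImplicit false

namespace Pool.Agent.MP_d0f9e0_co.AN91

open Pool.MP_d0f9e0_co.SH hiding Fx fib mem_Fx mem_fib Lat fib_disc fib_per fib_inv
open Pool.Agent.MP_d0f9e0_co.AN45 Set
open Pool.MP_d0f9e0_co.GH (Zl Stb Fx cL zL clsZ FZ fib mem_Zl lat_Zl psi_mk ex ex_add
  det_sub_left)
open Pool.MP_d0f9e0_co.CS (ee)
open Pool.Agent.Lib.MP_d0f9e0_co.AN (SS LC EE kk Rinv pt pt_lower pt_upper pt_cast EE_eq kk_refl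
  LC_of_SS)

section refl

variable {η : ℝ} {s : ℂ → ℂ} {c : ℕ} {a d : ℤ}

/-- Reflection for real arguments. -/
theorem EE_refl_real (hs : SS η s) (hc : 0 < c) (hd : (c : ℤ) ∣ a * d - 1) {t : ℝ} (m : ℤ)
    (h1 : -1 / (c : ℝ) < t) (h2 : t < η / c) :
    EE s η c a (t : ℂ) m * EE s η c a ((((η - 1) / c - t : ℝ)) : ℂ) (a - 1 - m) =
      (EE s η c a (t : ℂ) m / ‖EE s η c a (t : ℂ) m‖) ^ 2 := by
  have hη := hs.one_lt
  have hc0 : (c : ℂ) ≠ 0 := by exact_mod_cast hc.ne'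
  have hcp : (0 : ℝ) < (c : ℝ) := by exact_mod_cast hc
  have h7 : -1 / (c : ℝ) = -(1 / (c : ℝ)) := by ring
  rw [h7] at h1
  have rng : ∀ i ∈ Finset.range c, 0 < t + pt η c a m (i + 1) ∧
      t + pt η c a m (i + 1) < 1 + η := by
    intro i hi
    have hi' : i < c := Finset.mem_range.1 hi
    have h8 := pt_lower hη hc a m (Nat.le_add_left 1 i)
    have h9 := pt_upper hη hc a m (j := i + 1) hi'
    constructor <;> linarith
  have hne : EE s η c a (t : ℂ) m ≠ 0 := by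
    rw [EE_eq]
    refine Finset.prod_ne_zero_iff.2 fun i hi => ?_
    obtain ⟨r1, r2⟩ := rng i hi
    apply hs.ne
    · simp only [Complex.add_re, Complex.ofReal_re]
      exact r1
    · simp only [Complex.add_re, Complex.ofReal_re]
      exact r2
  have hn0 : ((‖EE s η c a (t : ℂ) m‖ : ℝ) : ℂ) ≠ 0 := by
    have : ‖EE s η c a (t : ℂ) m‖ ≠ 0 := norm_ne_zero_iff.2 hne
    exact_mod_cast this
  -- the product of the two functions
  have e1 : EE s η c a (t : ℂ) m * EE s η c a ((((η - 1) / c - t : ℝ)) : ℂ) (a - 1 - m) =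
      ∏ i ∈ Finset.range c, Complex.exp (Real.pi * Complex.I *
        Pool.Agent.Lib.MP_d0f9e0_co.AN.B22 η ((t + pt η c a m (i + 1) : ℝ) : ℂ)) := by
    rw [EE_eq, EE_eq, ← Finset.prod_range_reflect (fun i =>
      s (((((η - 1) / c - t : ℝ)) : ℂ) + (pt η c a (a - 1 - m) (i + 1) : ℝ))),
      ← Finset.prod_mul_distrib]
    refine Finset.prod_congr rfl fun i hi => ?_
    have hi' : i < c := Finset.mem_range.1 hi
    have h3 := kk_refl hc a m hi'
    obtain ⟨r1, r2⟩ := rng i hi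
    have h4 : ((((η - 1) / c - t : ℝ)) : ℂ) + (pt η c a (a - 1 - m) (c - 1 - i + 1) : ℝ) =
        1 + η - ((t + pt η c a m (i + 1) : ℝ) : ℂ) := by
      push_cast
      rw [pt_cast, pt_cast, h3]
      have h5 : ((c - 1 - i + 1 : ℕ) : ℂ) = c - i := by
        have : c - 1 - i + 1 = c - i := by omega
        rw [this, Nat.cast_sub hi'.le]
      rw [h5]
      field_simp
      push_cast
      ring
    rw [h4]
    have h6 : ((t : ℂ) + (pt η c a m (i + 1) : ℝ)) = ((t + pt η c a m (i + 1) : ℝ) : ℂ) := by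
      push_cast
      ring
    rw [h6]
    refine hs.refl _ ?_ ?_
    · rw [Complex.ofReal_re]
      exact r1
    · rw [Complex.ofReal_re]
      exact r2
  -- the phase of the first one
  have e2 : EE s η c a (t : ℂ) m = ((‖EE s η c a (t : ℂ) m‖ : ℝ) : ℂ) *
      ∏ i ∈ Finset.range c, Complex.exp (Real.pi * Complex.I *
        Pool.Agent.Lib.MP_d0f9e0_co.AN.B22 η ((t + pt η c a m (i + 1) : ℝ) : ℂ) / 2) := by
    rw [EE_eq, norm_prod]
    push_cast
    rw [← Finset.prod_mul_distrib]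
    refine Finset.prod_congr rfl fun i hi => ?_
    obtain ⟨r1, r2⟩ := rng i hi
    have h6 : ((t : ℂ) + (pt η c a m (i + 1) : ℝ)) = ((t + pt η c a m (i + 1) : ℝ) : ℂ) := by
      push_cast
      ring
    rw [h6]
    have := hs.real _ r1 r2
    push_cast at this ⊢
    exact this
  rw [e1]
  have e3 : EE s η c a (t : ℂ) m / ((‖EE s η c a (t : ℂ) m‖ : ℝ) : ℂ) =
      ∏ i ∈ Finset.range c, Complex.exp (Real.pi * Complex.I *
        Pool.Agent.Lib.MP_d0f9e0_co.AN.B22 η ((t + pt η c a m (i + 1) : ℝ) : ℂ) / 2) := by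
    rw [div_eq_iff hn0, mul_comm]
    exact e2
  rw [e3, ← Finset.prod_pow]
  refine Finset.prod_congr rfl fun i _ => ?_
  rw [← Complex.exp_nat_mul]
  congr 1
  push_cast
  ring

theorem EE_refl_val (hs : SS η s) (hc : 0 < c) (hd : (c : ℤ) ∣ a * d - 1) {t : ℝ} (m : ℤ)
    (h1 : -1 / (c : ℝ) < t) (h2 : t < η / c) :
    EE s η c a ((((η - 1) / c - t : ℝ)) : ℂ) (a - 1 - m) =
      EE s η c a (t : ℂ) m / (‖EE s η c a (t : ℂ) m‖ : ℂ) ^ 2 := by
  have hL := LC_of_SS hs hc hd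
  have hne : EE s η c a (t : ℂ) m ≠ 0 :=
    hL.ne _ _ (by rw [Complex.ofReal_re]; exact h1) (by rw [Complex.ofReal_re]; exact h2)
  have e := EE_refl_real hs hc hd m h1 h2
  apply mul_left_cancel₀ hne
  rw [e, div_pow]
  ring

end refl

section

variable {a b : ℤ} {c : ℕ} {d : ℤ} {β η : ℝ} {A : V ≃+ V} (h : Ctx a b c d β η A)
include h

theorem Ctx.dvd : (c : ℤ) ∣ a * d - 1 := by
  refine ⟨b, ?_⟩
  have := h.mat.det
  linear_combination this

omit h in
theorem zt_eq (x : V) : zt (c : ℤ) η x = x.2 * ((η - 1) / c) := by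
  unfold zt
  push_cast
  ring

theorem Ctx.eta_div_pos : 0 < (η - 1) / (c : ℝ) :=
  div_pos (by linarith [h.mat.one_lt]) h.cR

omit h in
theorem zt_sub (x y : V) : zt (c : ℤ) η (x - y) = zt (c : ℤ) η x - zt (c : ℤ) η y := by
  rw [zt_eq, zt_eq, zt_eq, Prod.snd_sub]
  push_cast
  ring

omit h in
theorem zt_add (x y : V) : zt (c : ℤ) η (x + y) = zt (c : ℤ) η x + zt (c : ℤ) η y := by
  rw [zt_eq, zt_eq, zt_eq, Prod.snd_add]
  push_cast
  ring

omit h in
theorem mq_sub (x y : V) : mq a (c : ℤ) (x - y) = mq a (c : ℤ) x - mq a (c : ℤ) y := by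
  simp only [mq, Prod.fst_sub, Prod.snd_sub]
  ring

omit h in
theorem mq_add (x y : V) : mq a (c : ℤ) (x + y) = mq a (c : ℤ) x + mq a (c : ℤ) y := by
  simp only [mq, Prod.fst_add, Prod.snd_add]
  ring

omit h in
theorem Nq_sub (x y : V) : Nq b d (x - y) = Nq b d x - Nq b d y := by
  simp only [Nq, Prod.fst_sub, Prod.snd_sub]
  ring

omit h in
theorem Nq_add (x y : V) : Nq b d (x + y) = Nq b d x + Nq b d y := by
  simp only [Nq, Prod.fst_add, Prod.snd_add]
  ring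

omit h in
theorem Tor.sub {x y : V} (hx : Tor a b (c : ℤ) d x) (hy : Tor a b (c : ℤ) d y) :
    Tor a b (c : ℤ) d (x - y) := by
  obtain ⟨N, m, h1, h2⟩ := hx
  obtain ⟨N', m', h1', h2'⟩ := hy
  refine ⟨N - N', m - m', ?_, ?_⟩
  · rw [Nq_sub, h1, h1']
    push_cast
    ring
  · rw [mq_sub, h2, h2']
    push_cast
    ring

omit h in
theorem Tor.add {x y : V} (hx : Tor a b (c : ℤ) d x) (hy : Tor a b (c : ℤ) d y) :
    Tor a b (c : ℤ) d (x + y) := by
  obtain ⟨N, m, h1, h2⟩ := hx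
  obtain ⟨N', m', h1', h2'⟩ := hy
  refine ⟨N + N', m + m', ?_, ?_⟩
  · rw [Nq_add, h1, h1']
    push_cast
    ring
  · rw [mq_add, h2, h2']
    push_cast
    ring

omit h in
theorem Tor.zero : Tor a b (c : ℤ) d (0 : V) :=
  ⟨0, 0, by simp [Nq], by simp [mq]⟩

omit h in
theorem Tor.neg {x : V} (hx : Tor a b (c : ℤ) d x) : Tor a b (c : ℤ) d (-x) := by
  rw [← zero_sub]
  exact Tor.sub Tor.zero hx

omit h in
theorem mk_add_int (x : V) (i j : ℤ) :
    (QuotientAddGroup.mk (x + ((i : ℚ), (j : ℚ))) : V ⧸ Zl) = QuotientAddGroup.mk x := by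
  rw [QuotientAddGroup.mk_add]
  have : (QuotientAddGroup.mk (((i : ℚ), (j : ℚ)) : V) : V ⧸ Zl) = 0 := by
    rw [QuotientAddGroup.eq_zero_iff, mem_Zl]
    exact ⟨i, j, rfl⟩
  rw [this, add_zero]

omit h in
theorem zL_ne (β : ℝ) (A : V ≃+ V) (x : V ⧸ Zl) : zL β A Zl x ≠ 0 := Complex.exp_ne_zero _

omit h in
theorem zL_norm (β : ℝ) (A : V ≃+ V) (x : V ⧸ Zl) : ‖zL β A Zl x‖ = 1 := by
  unfold zL
  have : (Real.pi * Complex.I * (clsZ β A (fib Zl x) : ℝ) : ℂ) =
      ((Real.pi * clsZ β A (fib Zl x) : ℝ) : ℂ) * Complex.I := by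
    push_cast
    ring
  rw [this, Complex.norm_exp_ofReal_mul_I]

variable {s : ℂ → ℂ} (hs : SS η s) {S : ℝ → ℝ → ℝ → ℝ} (hSd : DS S)
  (hS : ∀ x : ℝ, 0 < x → x < 1 + η → ‖s x‖ = (S 1 η x)⁻¹)

theorem Ctx.cLpos (hSd : DS S) (x : V ⧸ Zl) : 0 < cL S β A Zl x :=
  cl_pos hSd h.irr h.hyp Zl x

theorem Ctx.zt_rng {x : V} (hx0 : 0 ≤ x.2) (hx1 : x.2 < 1) :
    0 ≤ zt (c : ℤ) η x ∧ zt (c : ℤ) η x < (η - 1) / c := by
  have hp := h.eta_div_pos
  have hxR0 : (0 : ℝ) ≤ x.2 := by exact_mod_cast hx0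
  have hxR1 : (x.2 : ℝ) < 1 := by exact_mod_cast hx1
  rw [zt_eq]
  constructor
  · positivity
  · nlinarith

include hs hSd hS in
/-- **The value for `0 < x₂ ≤ 1`.** -/
theorem Ctx.EE_val' {x : V} (hx : Tor a b (c : ℤ) d x) (hx0 : 0 < x.2) (hx1 : x.2 ≤ 1) {m : ℤ}
    (hm : mq a (c : ℤ) x = m) :
    EE s η c a ((zt (c : ℤ) η x : ℝ) : ℂ) m =
      zL β A Zl (-QuotientAddGroup.mk x) * ((cL S β A Zl (-QuotientAddGroup.mk x) : ℝ) : ℂ) := by
  have hcR := h.cR
  have hη := h.mat.one_lt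
  set x' : V := -x + (((0 : ℤ) : ℚ), ((1 : ℤ) : ℚ)) with hx'
  have t' : Tor a b (c : ℤ) d x' := (Tor.neg hx).shift 0 1
  have hx2 : x'.2 = 1 - x.2 := by
    rw [hx']
    simp only [Prod.snd_add, Prod.snd_neg]
    push_cast
    ring
  have hm' : mq a (c : ℤ) x' = ((a - 1 - m : ℤ) : ℚ) := by
    rw [hx', mq_shift]
    have : mq a (c : ℤ) (-x) = -mq a (c : ℤ) x := by
      simp only [mq, Prod.fst_neg, Prod.snd_neg]
      ring
    rw [this, hm]
    push_cast
    ring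
  have v1 := h.EE_val hs hSd hS t' (by rw [hx2]; linarith) (by rw [hx2]; linarith) hm'
  have hmk : (QuotientAddGroup.mk x' : V ⧸ Zl) = -QuotientAddGroup.mk x := by
    rw [hx', mk_add_int, QuotientAddGroup.mk_neg]
  rw [hmk] at v1
  obtain ⟨r1, r2⟩ := h.zt_rng (x := x') (by rw [hx2]; linarith) (by rw [hx2]; linarith)
  have hc1 : 0 < 1 / (c : ℝ) := by positivity
  have e6 : (η - 1) / (c : ℝ) = η / c - 1 / c := by ring
  have h7 : -1 / (c : ℝ) = -(1 / (c : ℝ)) := by ring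
  have v2 := EE_refl_val hs h.cpos h.dvd (t := zt (c : ℤ) η x') (a - 1 - m)
    (by rw [h7]; linarith) (by linarith)
  have e8 : a - 1 - (a - 1 - m) = m := by ring
  have e9 : (η - 1) / c - zt (c : ℤ) η x' = zt (c : ℤ) η x := by
    rw [zt_eq, zt_eq, hx2]
    push_cast
    ring
  rw [e8, e9, v1] at v2
  rw [v2]
  have hc := h.cLpos hSd (-QuotientAddGroup.mk x)
  rw [norm_div, zL_norm, Complex.norm_real, Real.norm_of_nonneg hc.le]
  have hc' : ((cL S β A Zl (-QuotientAddGroup.mk x) : ℝ) : ℂ) ≠ 0 := by exact_mod_cast hc.ne'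
  push_cast
  field_simp

include hs hSd hS in
/-- **The value of the inverse for `-1 < x₂ < 1`.** -/
theorem Ctx.Rinv_val {x : V} (hx : Tor a b (c : ℤ) d x) (hx0 : -1 < x.2) (hx1 : x.2 < 1) {m : ℤ}
    (hm : mq a (c : ℤ) x = m) :
    Rinv (EE s η c a) η c d ((zt (c : ℤ) η x : ℝ) : ℂ) m =
      ((cL S β A Zl (QuotientAddGroup.mk x) : ℝ) : ℂ) / zL β A Zl (QuotientAddGroup.mk x) := by
  have hcR := h.cR
  have hη := h.mat.one_lt
  have hp := h.eta_div_pos
  unfold Rinv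
  rw [Complex.ofReal_re]
  by_cases hz : 0 ≤ x.2
  · have hz' : 0 ≤ zt (c : ℤ) η x := (h.zt_rng hz hx1).1
    rw [if_pos hz', h.EE_val hs hSd hS hx hz hx1 hm, one_div, inv_div]
  · push Not at hz
    have hzR : (x.2 : ℝ) < 0 := by exact_mod_cast hz
    have hz' : ¬ 0 ≤ zt (c : ℤ) η x := by
      rw [zt_eq]
      nlinarith
    rw [if_neg hz']
    set x' : V := x + (((0 : ℤ) : ℚ), ((1 : ℤ) : ℚ)) with hx'
    have t' : Tor a b (c : ℤ) d x' := hx.shift 0 1
    have hx2 : x'.2 = x.2 + 1 := by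
      rw [hx']
      simp only [Prod.snd_add]
      push_cast
      ring
    have hm' : mq a (c : ℤ) x' = ((m - 1 + a : ℤ) : ℚ) := by
      rw [hx', mq_shift, hm]
      push_cast
      ring
    have v1 := h.EE_val hs hSd hS t' (by rw [hx2]; linarith) (by rw [hx2]; linarith) hm'
    have hmk : (QuotientAddGroup.mk x' : V ⧸ Zl) = QuotientAddGroup.mk x := by
      rw [hx', mk_add_int]
    rw [hmk] at v1
    obtain ⟨r1, r2⟩ := h.zt_rng (x := x') (by rw [hx2]; linarith) (by rw [hx2]; linarith)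
    have hc1 : 0 < 1 / (c : ℝ) := by positivity
    have h7 : -1 / (c : ℝ) = -(1 / (c : ℝ)) := by ring
    have hL := LC_of_SS hs h.cpos h.dvd
    have v2 := hL.s1 ((zt (c : ℤ) η x' : ℝ) : ℂ) (m - 1 + a)
      (by rw [Complex.ofReal_re, h7]; linarith) (by rw [Complex.ofReal_re]; exact r2)
    have e1 : ((zt (c : ℤ) η x' : ℝ) : ℂ) + 1 / c = ((zt (c : ℤ) η x : ℝ) : ℂ) + η / c := by
      rw [zt_eq, zt_eq, hx2]
      push_cast
      ring
    have e2 : m - 1 + a - a = m - 1 := by ring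
    rw [e1, e2] at v2
    rw [v2, v1]
    -- the two factors agree
    obtain ⟨N, m', hN, hm''⟩ := hx
    have hmm : m' = m := by
      rw [hm] at hm''
      exact_mod_cast hm''.symm
    subst hmm
    have hXt := h.mat.Xt x
    have hX := h.mat.X x
    rw [hm] at hXt hX
    rw [hN] at hX
    have f1 : ((zt (c : ℤ) η x : ℝ) : ℂ) + d * m' / c = ((ell β x : ℝ) : ℂ) + (N : ℂ) := by
      have : zt (c : ℤ) η x + d * m' / c = ell β x + N := by
        push_cast at hX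
        push_cast
        exact hX
      have := congrArg (fun r : ℝ => (r : ℂ)) this
      push_cast at this ⊢
      exact this
    have f2 : ((zt (c : ℤ) η x' : ℝ) : ℂ) / η + 1 / (c * η) + ((m' - 1 + a : ℤ) - a) / c =
        ((ell β x : ℝ) : ℂ) := by
      have g1 : zt (c : ℤ) η x / η + m' / c = ell β x := by
        push_cast at hXt
        push_cast
        exact hXt
      have g2 : zt (c : ℤ) η x' / η + 1 / (c * η) + ((m' - 1 + a : ℤ) - a) / c =
          zt (c : ℤ) η x / η + m' / c := by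
        have hη0 : η ≠ 0 := by linarith
        rw [zt_eq, zt_eq, hx2]
        push_cast
        field_simp
        ring
      have := congrArg (fun r : ℝ => (r : ℂ)) (g2.trans g1)
      push_cast at this ⊢
      exact this
    rw [f1, f2]
    have f3 : ee (((ell β x : ℝ) : ℂ) + (N : ℂ)) = ee ((ell β x : ℝ) : ℂ) := by
      unfold Pool.MP_d0f9e0_co.CS.ee
      rw [mul_add, Complex.exp_add]
      have : (2 * Real.pi * Complex.I * (N : ℂ)) = (N : ℂ) * (2 * Real.pi * Complex.I) := by ring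
      rw [this, Complex.exp_int_mul_two_pi_mul_I, mul_one]
    rw [f3]
    have f4 : 1 - ee ((ell β x : ℝ) : ℂ) ≠ 0 := by
      intro f5
      have f6 : ee ((ell β x : ℝ) : ℂ) = 1 := by
        rw [sub_eq_zero] at f5
        exact f5.symm
      unfold Pool.MP_d0f9e0_co.CS.ee at f6
      rw [Complex.exp_eq_one_iff] at f6
      obtain ⟨k, hk⟩ := f6
      have f7 : ((ell β x : ℝ) : ℂ) = (k : ℂ) := by
        have h2pi : (2 * Real.pi * Complex.I : ℂ) ≠ 0 := Complex.two_pi_I_ne_zero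
        apply mul_left_cancel₀ h2pi
        rw [hk]
        ring
      have f8 : ell β x = k := by exact_mod_cast f7
      have f9 : ell β (x - ((k : ℚ), 0)) = 0 := by
        unfold ell at f8 ⊢
        simp only [Prod.fst_sub, Prod.snd_sub]
        push_cast
        linarith
      have f10 := ell_eq_zero h.irr f9
      have f11 : x.2 = 0 := by
        have := congrArg Prod.snd f10
        simpa using this
      rw [f11] at hz
      exact lt_irrefl _ hz
    have hc := h.cLpos hSd (QuotientAddGroup.mk x)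
    have hc' : ((cL S β A Zl (QuotientAddGroup.mk x) : ℝ) : ℂ) ≠ 0 := by exact_mod_cast hc.ne'
    have hz0 := zL_ne β A (QuotientAddGroup.mk x : V ⧸ Zl)
    field_simp

/-- **The kernel at torsion points.** -/
theorem Ctx.psi_val {x y : V} (hx : Tor a b (c : ℤ) d x) (hy : Tor a b (c : ℤ) d y) {m k : ℤ}
    (hm : mq a (c : ℤ) x = m) (hk : mq a (c : ℤ) y = k) :
    Pool.Agent.Lib.MP_d0f9e0_co.AN.psi η c d ((zt (c : ℤ) η x : ℝ) : ℂ) m
      ((zt (c : ℤ) η y : ℝ) : ℂ) k =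
      Pool.MP_d0f9e0_co.GH.psi A Zl 1 (QuotientAddGroup.mk x) (QuotientAddGroup.mk y) := by
  rw [psi_mk h.hyp lat_Zl h.stb ((h.tor_iff x).1 hx) ((h.tor_iff y).1 hy)]
  obtain ⟨N', k', hN', hk'⟩ := hy
  have hkk : k' = k := by
    rw [hk] at hk'
    exact_mod_cast hk'.symm
  subst hkk
  have hK := h.mat.kernel x y
  rw [hm, hk, hN'] at hK
  unfold Pool.Agent.Lib.MP_d0f9e0_co.AN.psi
  have e1 : ((c : ℂ) * ((zt (c : ℤ) η x : ℝ) : ℂ) * ((zt (c : ℤ) η y : ℝ) : ℂ) / η -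
      d * m * k' / c) = ((((Nq b d x * y.2 - m * y.1 : ℚ) : ℝ) - ((m * N' : ℤ) : ℝ) : ℝ) : ℂ) := by
    have e2 : (c : ℝ) * zt (c : ℤ) η x * zt (c : ℤ) η y / η - d * m * k' / c =
        ((Nq b d x * y.2 - m * y.1 : ℚ) : ℝ) - ((m * N' : ℤ) : ℝ) := by
      push_cast at hK
      push_cast
      exact hK
    have := congrArg (fun r : ℝ => (r : ℂ)) e2
    push_cast at this ⊢
    exact this
  rw [e1]
  have e3 : (det (A x - x) y / 1 : ℚ) = Nq b d x * y.2 - m * y.1 := by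
    rw [h.sub_eq, hm]
    simp only [det, div_one]
  rw [e3]
  have e4 : ex (((Nq b d x * y.2 - m * y.1 : ℚ) : ℝ) - ((m * N' : ℤ) : ℝ)) =
      ex ((Nq b d x * y.2 - m * y.1 : ℚ) : ℝ) := by
    have := Pool.MP_d0f9e0_co.GH.ex_add_int ((Nq b d x * y.2 - m * y.1 : ℚ) : ℝ) (-(m * N'))
    push_cast at this ⊢
    rw [← this]
    congr 1
  rw [← e4]
  unfold Pool.MP_d0f9e0_co.CS.ee ex
  rfl

end

end Pool.Agent.MP_d0f9e0_co.AN91
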