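import Pool.Agent.Lib.MP_d0f9e0_co.AN45.Tor
import Pool.Agent.Lib.MP_d0f9e0_co.AN.LCof
import Pool.Agent.Lib.MP_d0f9e0_co.GH.Rel87
import Pool.Agent.Lib.MP_d0f9e0_co.GH.Beta
import Pool.Agent.Lib.MP_d0f9e0_co.GH.Card
import Pool.Agent.Lib.MP_d0f9e0_co.PH.Cs96

/-!
# (S5), spare version (helper91): values of the level `c` function at the torsion points
-/

set_option autoImplicit false

namespace Pool.Agent.MP_d0f9e0_co.AN91

open Pool.MP_d0f9e0_co.SH hiding Fx fib mem_Fx mem_fib Lat fib_disc fib_per fib_inv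
open Pool.Agent.MP_d0f9e0_co.AN45 Set
open Pool.MP_d0f9e0_co.GH (Zl Stb Fx cL zL clsZ FZ fib mem_Zl lat_Zl mem_Fx psi_mk ex)
open Pool.MP_d0f9e0_co.CS (ee)
open Pool.Agent.Lib.MP_d0f9e0_co.AN (SS LC EE kk Rinv)

/-- The context: the matrix `A` in coordinates. -/
structure Ctx (a b : ℤ) (c : ℕ) (d : ℤ) (β η : ℝ) (A : V ≃+ V) : Prop where
  mat : Mat a b (c : ℤ) d β η
  irr : Irrational β
  map : ∀ p, A p = ((d : ℚ) * p.1 + b * p.2, (c : ℚ) * p.1 + a * p.2)

section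

variable {a b : ℤ} {c : ℕ} {d : ℤ} {β η : ℝ} {A : V ≃+ V} (h : Ctx a b c d β η A)
include h

theorem Ctx.cpos : 0 < c := by
  have := h.mat.cpos
  exact_mod_cast this

theorem Ctx.cR : (0 : ℝ) < c := by exact_mod_cast h.cpos

theorem Ctx.cQ : (0 : ℚ) < c := by exact_mod_cast h.cpos

theorem Ctx.etairr : Irrational η := by
  have h1 := h.mat.eta
  rw [h1]
  have h2 : Irrational (((c : ℤ) : ℝ) * β) := by
    have := h.irr.natCast_mul h.cpos.ne'
    exact_mod_cast this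
  have := h2.add_intCast d
  exact this

theorem Ctx.hyp : Hyp β A η where
  det_eq p q := by
    have h1 := h.mat.det
    have h2 : (a : ℚ) * d - b * c = 1 := by exact_mod_cast h1
    rw [h.map, h.map]
    simp only [det]
    linear_combination (p.1 * q.2 - p.2 * q.1) * h2
  ell_eq p := by
    have h1 := h.mat.eta
    have h2 := h.mat.fix
    rw [h.map]
    simp only [ell]
    push_cast
    have h1' : η = c * β + d := by
      rw [h1]
      push_cast
      ring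
    linear_combination (-(p.1 : ℝ)) * h1' - (p.2 : ℝ) * h2
  pos := h.mat.etapos

theorem Ctx.sub_eq (x : V) : A x - x = (Nq b d x, mq a (c : ℤ) x) := by
  rw [h.map]
  ext
  · simp only [Nq, Prod.fst_sub]
    ring
  · simp only [mq, Prod.snd_sub]
    push_cast
    ring

theorem Ctx.stb : Stb A Zl := by
  have h1 := h.mat.det
  have h2 : (a : ℚ) * d - b * c = 1 := by exact_mod_cast h1
  intro p
  rw [mem_Zl, mem_Zl, h.map]
  constructor
  · rintro ⟨m, n, e⟩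
    have e1 : (d : ℚ) * p.1 + b * p.2 = m := congrArg Prod.fst e
    have e2 : (c : ℚ) * p.1 + a * p.2 = n := congrArg Prod.snd e
    refine ⟨a * m - b * n, d * n - c * m, ?_⟩
    ext
    · push_cast
      linear_combination (a : ℚ) * e1 - (b : ℚ) * e2 - p.1 * h2
    · push_cast
      linear_combination (d : ℚ) * e2 - (c : ℚ) * e1 - p.2 * h2
  · rintro ⟨m, n, rfl⟩
    refine ⟨d * m + b * n, c * m + a * n, ?_⟩
    ext <;> push_cast <;> rfl

theorem Ctx.tor_iff (x : V) : Tor a b (c : ℤ) d x ↔ A x - x ∈ Zl := by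
  rw [h.sub_eq, mem_Zl]
  constructor
  · rintro ⟨N, m, h1, h2⟩
    exact ⟨N, m, by rw [h1, h2]⟩
  · rintro ⟨N, m, e⟩
    exact ⟨N, m, congrArg Prod.fst e, congrArg Prod.snd e⟩

theorem Ctx.mem_Fx (x : V) :
    (QuotientAddGroup.mk x : V ⧸ Zl) ∈ Fx A Zl ↔ Tor a b (c : ℤ) d x := by
  rw [h.tor_iff, Pool.MP_d0f9e0_co.GH.mem_Fx h.stb]

omit h in
theorem fib_coset (x : V) : fib Zl (QuotientAddGroup.mk x) = coset x := by
  ext p
  rw [Pool.MP_d0f9e0_co.GH.mem_fib, eq_comm, QuotientAddGroup.eq, mem_Zl]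
  constructor
  · rintro ⟨m, n, e⟩
    have e1 : -x.1 + p.1 = m := congrArg Prod.fst e
    have e2 : -x.2 + p.2 = n := congrArg Prod.snd e
    exact ⟨m, n, by linarith, by linarith⟩
  · rintro ⟨m, n, e1, e2⟩
    refine ⟨m, n, ?_⟩
    ext
    · show -x.1 + p.1 = m
      linarith
    · show -x.2 + p.2 = n
      linarith

theorem Ctx.A_e : A (1, 0) = (((d : ℤ) : ℚ), (((c : ℤ)) : ℚ)) := by
  rw [h.map]
  ext <;> simp

omit h in
theorem ell_e (β : ℝ) : ell β (((1 : ℚ), (0 : ℚ)) : V) = 1 := by simp [ell]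

theorem Ctx.ell_Ae : ell β (A (1, 0)) = η := by
  rw [h.hyp.ell_eq, ell_e, mul_one]

omit h in
theorem e_mem : (((1 : ℚ), (0 : ℚ)) : V) ∈ Zl := by
  rw [mem_Zl]
  exact ⟨1, 0, by simp⟩

theorem Ctx.det_e : 0 < det (((1 : ℚ), (0 : ℚ)) : V) (A (1, 0)) := by
  rw [h.A_e, det_e_etae]
  exact_mod_cast h.cpos

theorem Ctx.ell_ptj (x : V) (j k : ℤ) :
    ell β (ptj (c : ℤ) d x j k) = zt (c : ℤ) η x + (k * η + j) / c := by
  have h1 := h.mat.eta
  have hc := h.cR.ne'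
  unfold ell ptj zt
  push_cast
  rw [h1]
  push_cast
  field_simp
  ring

/-! ### The value of `EE` -/

/-- The complex cone function `T = exp (π i B22 / 2) / S`. -/
noncomputable def TT (S : ℝ → ℝ → ℝ → ℝ) (a b z : ℝ) : ℂ :=
  (((S a b z)⁻¹ : ℝ) : ℂ) *
    Complex.exp (Real.pi * Complex.I * ((Pool.MP_d0f9e0_co.GH.B22 a b z / 2 : ℝ) : ℂ))

omit h in
theorem s_eq_TT {s : ℂ → ℂ} (hs : SS η s) {S : ℝ → ℝ → ℝ → ℝ}
    (hS : ∀ x : ℝ, 0 < x → x < 1 + η → ‖s x‖ = (S 1 η x)⁻¹) {x : ℝ} (h0 : 0 < x)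
    (h1 : x < 1 + η) : s x = TT S 1 η x := by
  have h2 := hs.real x h0 h1
  have hη : (η : ℂ) ≠ 0 := by
    have : η ≠ 0 := by linarith [hs.one_lt]
    exact_mod_cast this
  rw [h2, TT, hS x h0 h1]
  congr 2
  unfold Pool.Agent.Lib.MP_d0f9e0_co.AN.B22 Pool.MP_d0f9e0_co.GH.B22
  push_cast
  field_simp

/-- **The value of the level `c` function at a torsion point**, `0 ≤ x₂ < 1`. -/
theorem Ctx.EE_val {s : ℂ → ℂ} (hs : SS η s) {S : ℝ → ℝ → ℝ → ℝ} (hSd : DS S)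
    (hS : ∀ x : ℝ, 0 < x → x < 1 + η → ‖s x‖ = (S 1 η x)⁻¹) {x : V}
    (hx : Tor a b (c : ℤ) d x) (hx0 : 0 ≤ x.2) (hx1 : x.2 < 1) {m : ℤ}
    (hm : mq a (c : ℤ) x = m) :
    EE s η c a ((zt (c : ℤ) η x : ℝ) : ℂ) m =
      zL β A Zl (QuotientAddGroup.mk x) / ((cL S β A Zl (QuotientAddGroup.mk x) : ℝ) : ℂ) := by
  obtain ⟨N, m', hN, hm'⟩ := hx
  have hmm : m' = m := by
    rw [hm] at hm'
    exact_mod_cast hm'.symm
  subst hmm
  have hmem : (QuotientAddGroup.mk x : V ⧸ Zl) ∈ Fx A Zl := (h.mem_Fx x).2 ⟨N, m', hN, hm⟩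
  set X := fib Zl (QuotientAddGroup.mk x) with hX
  have hXc : X = coset x := fib_coset x
  have hdisc : Disc X := Pool.MP_d0f9e0_co.GH.fib_disc lat_Zl _
  have hinv : Inv A X := Pool.MP_d0f9e0_co.GH.fib_inv h.stb hmem
  have hadm : Adm β A X (1, 0) :=
    ⟨Pool.MP_d0f9e0_co.GH.fib_per Zl _ e_mem, by rw [ell_e]; exact one_pos, h.det_e⟩
  have hCS : CS (fun a b z => (S a b z)⁻¹) := hSd.cs.inv
  have e1 := Pool.MP_d0f9e0_co.PH.cls_full_eq hCS h.irr h.hyp hdisc hinv hadm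
  have e2 : cls (fun a b z => (S a b z)⁻¹) β A X = (cls S β A X)⁻¹ :=
    cls_hom (S := S) (invMonoidHom : ℝ →* ℝ) β A hdisc
  rw [e2] at e1
  have e3 : zL β A Zl (QuotientAddGroup.mk x) / ((cL S β A Zl (QuotientAddGroup.mk x) : ℝ) : ℂ) =
      F (TT S) β X (1, 0) (A (1, 0)) := by
    rw [show F (TT S) β X (1, 0) (A (1, 0)) = _ from e1.symm]
    unfold zL cL
    rw [← hX]
    push_cast
    rw [div_eq_mul_inv, mul_comm]
  rw [e3, F, hXc, ell_e, h.ell_Ae, h.A_e,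
    finprod_coset h.mat.det h.mat.cpos (m := m') (N := N) hm hN _ hx0 hx1]
  unfold EE
  refine Finset.prod_bij (fun (j : ℕ) _ => (j : ℤ)) ?_ ?_ ?_ ?_
  · intro j hj
    rw [Finset.mem_Icc] at hj ⊢
    omega
  · intro i _ j _ hij
    exact_mod_cast hij
  · intro j hj
    rw [Finset.mem_Icc] at hj
    refine ⟨j.toNat, ?_, ?_⟩
    · rw [Finset.mem_Icc]
      omega
    · omega
  · intro j hj
    rw [Finset.mem_Icc] at hj
    rw [h.ell_ptj]
    have hk0 : (0 : ℝ) ≤ ((m' - a * j) % (c : ℤ) : ℤ) := by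
      exact_mod_cast Int.emod_nonneg _ h.mat.cpos.ne'
    have hk1 : (((m' - a * j) % (c : ℤ) : ℤ) : ℝ) ≤ c - 1 := by
      have : (m' - a * j) % (c : ℤ) < c := Int.emod_lt_of_pos _ h.mat.cpos
      have h2 : (m' - a * j) % (c : ℤ) ≤ c - 1 := by omega
      exact_mod_cast h2
    have hj1 : (1 : ℝ) ≤ j := by exact_mod_cast hj.1
    have hj2 : (j : ℝ) ≤ c := by exact_mod_cast hj.2
    have hη := hs.one_lt
    have hcR := h.cR
    have hxR0 : (0 : ℝ) ≤ x.2 := by exact_mod_cast hx0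
    have hxR1 : (x.2 : ℝ) < 1 := by exact_mod_cast hx1
    have hz0 : 0 ≤ zt (c : ℤ) η x := by
      unfold zt
      push_cast
      apply mul_nonneg hxR0
      apply div_nonneg (by linarith) hcR.le
    have hz1 : zt (c : ℤ) η x < (η - 1) / c := by
      unfold zt
      push_cast
      have : 0 < (η - 1) / c := div_pos (by linarith) hcR
      nlinarith
    rw [← s_eq_TT hs hS]
    · congr 1
      unfold kk
      push_cast
      ring
    · have : 0 < ((((m' - a * j) % (c : ℤ) : ℤ) : ℝ) * η + ((j : ℤ) : ℝ)) / c := by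
        apply div_pos _ hcR
        push_cast
        nlinarith
      linarith
    · have : ((((m' - a * j) % (c : ℤ) : ℤ) : ℝ) * η + ((j : ℤ) : ℝ)) / c ≤
          ((c - 1) * η + c) / c := by
        apply div_le_div_of_nonneg_right _ hcR.le
        push_cast
        nlinarith
      have e5 : ((c - 1) * η + c) / (c : ℝ) = 1 + η - η / c := by
        field_simp
        ring
      rw [e5] at this
      have e6 : (η - 1) / (c : ℝ) = η / c - 1 / c := by ring
      rw [e6] at hz1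
      have e7 : 0 < 1 / (c : ℝ) := by positivity
      linarith

end

end Pool.Agent.MP_d0f9e0_co.AN91
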